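import Mathlib

set_option linter.unusedSectionVars false

open QuadraticMap

namespace Pool.Agent.H.MP_14e93c_nt

variable {R K V : Type*} [CommRing R] [IsDedekindDomain R] [Field K] [Algebra R K]
  [IsFractionRing R K] [AddCommGroup V] [Module K V] [Module R V] [IsScalarTower R K V]

theorem card_mul (a : R) (ha : a ≠ 0) (I : Ideal R) :
    Nat.card (R ⧸ Ideal.span {a} * I) = Nat.card (R ⧸ I) * Nat.card (R ⧸ Ideal.span {a}) := by
  have h := AddSubgroup.index_map_of_injective I.toAddSubgroup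
    (f := AddMonoidHom.mulLeft a) (mul_right_injective₀ ha)
  have e1 : I.toAddSubgroup.map (AddMonoidHom.mulLeft a) = (Ideal.span {a} * I).toAddSubgroup := by
    ext x
    simp [Ideal.mem_span_singleton_mul]
  have e2 : (AddMonoidHom.mulLeft a).range = (Ideal.span {a}).toAddSubgroup := by
    ext x
    simp [Ideal.mem_span_singleton', mul_comm]
  rw [e1, e2] at h
  exact h

theorem card_le (hfin : ∀ I : Ideal R, I ≠ ⊥ → Finite (R ⧸ I)) {I J : Ideal R} (hI : I ≠ ⊥)
    (h : I ≤ J) : Nat.card (R ⧸ J) ≤ Nat.card (R ⧸ I) := by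
  have := hfin I hI
  exact Nat.card_le_card_of_surjective _ (Ideal.Quotient.factor_surjective h)

/-- `|t| < 1` for nonzero `t`. -/
def Small (R : Type*) {K : Type*} [CommRing R] [Field K] [Algebra R K] (t : K) : Prop :=
  ∃ a b : R, a ≠ 0 ∧ b ≠ 0 ∧ t * algebraMap R K b = algebraMap R K a ∧
    Nat.card (R ⧸ Ideal.span {a}) < Nat.card (R ⧸ Ideal.span {b})

def den (L : Submodule R V) (x : V) : Ideal R := L.comap (LinearMap.toSpanSingleton R V x)

theorem mem_den {L : Submodule R V} {x : V} {r : R} : r ∈ den L x ↔ r • x ∈ L := Iff.rfl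

noncomputable def rfl' (Q : QuadraticMap K V K) (w : V) : V →ₗ[K] V :=
  LinearMap.id - (polarBilin Q w).smulRight ((Q w)⁻¹ • w)

theorem rfl'_apply (Q : QuadraticMap K V K) (w v : V) :
    rfl' Q w v = v - polar Q w v • (Q w)⁻¹ • w := rfl

theorem rfl'_inv (Q : QuadraticMap K V K) (w : V) (hw : Q w ≠ 0) :
    Function.Involutive (rfl' Q w) := by
  intro v
  rw [rfl'_apply, rfl'_apply, polar_sub_right, polar_smul_right, polar_smul_right, polar_self]
  have : polar Q w v - polar Q w v • (Q w)⁻¹ • 2 • Q w = -polar Q w v := by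
    simp only [smul_eq_mul, nsmul_eq_mul]
    field_simp
    ring
  rw [this]
  simp

theorem map_sub' (Q : QuadraticMap K V K) (x y : V) : Q (x - y) = Q x - polar Q x y + Q y := by
  have : polar Q x (-y) = Q (x + -y) - Q x - Q (-y) := rfl
  rw [polar_neg_right, QuadraticMap.map_neg, ← sub_eq_add_neg] at this
  linear_combination -this

theorem rfl'_iso (Q : QuadraticMap K V K) (w : V) (hw : Q w ≠ 0) (v : V) :
    Q (rfl' Q w v) = Q v := by
  rw [rfl'_apply, map_sub', polar_smul_right, polar_smul_right, QuadraticMap.map_smul,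
    QuadraticMap.map_smul, polar_comm Q v w]
  simp only [smul_eq_mul]
  field_simp
  ring

def Integ (Q : QuadraticMap K V K) (M : Submodule R V) : Prop :=
  ∀ m ∈ M, Q m ∈ (algebraMap R K).range

theorem Integ.polar {Q : QuadraticMap K V K} {M : Submodule R V} (h : Integ Q M) {x y : V}
    (hx : x ∈ M) (hy : y ∈ M) : polar Q x y ∈ (algebraMap R K).range :=
  sub_mem (sub_mem (h _ (add_mem hx hy)) (h _ hx)) (h _ hy)

theorem cyc (hfin : ∀ I : Ideal R, I ≠ ⊥ → Finite (R ⧸ I)) (Q : QuadraticMap K V K)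
    (L : Submodule R V) (hL : Integ Q L) (hden : ∀ x, den L x ≠ ⊥)
    (heuc : ∀ x, x ∉ L → ∃ y ∈ L, Small R (Q (x - y))) (N : ℕ) :
    ∀ (x : V) (M : Submodule R V), Nat.card (R ⧸ den L x) < N → Integ Q M → x ∈ M →
      (∀ m ∈ M, ∃ r : R, m - r • x ∈ L) →
      ∃ s : V ≃ₗ[K] V, (∀ v, Q (s v) = Q v) ∧ ∀ m ∈ M, s m ∈ L := by
  induction N with
  | zero => intro x M h; omega
  | succ N ih =>
    intro x M hN hM hx hc
    by_cases hxL : x ∈ L
    · refine ⟨LinearEquiv.refl K V, fun _ => rfl, fun m hm => ?_⟩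
      obtain ⟨r, hr⟩ := hc m hm
      simpa using add_mem hr (L.smul_mem r hxL)
    obtain ⟨y, hy, a, b, ha, hb, hab, hlt⟩ := heuc x hxL
    set w := x - y with hw
    have inj := IsFractionRing.injective R K
    have hQ : Q w ≠ 0 := by
      intro c
      rw [c, zero_mul] at hab
      exact ha (inj (by rw [← hab, map_zero]))
    set u : V := (Q w)⁻¹ • w with hu
    let t : V ≃ₗ[K] V := LinearEquiv.ofInvolutive (rfl' Q w) (rfl'_inv Q w hQ)
    have ht : ∀ v, t v = v - polar Q w v • u := fun v => rfl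
    let M' : Submodule R V := M.map (t.toLinearMap.restrictScalars R)
    have hM' : Integ Q M' := by
      rintro _ ⟨m, hm, rfl⟩
      have := rfl'_iso Q w hQ m
      exact this ▸ hM m hm
    have hx' : ∃ s : R, t x - s • u ∈ L := by
      obtain ⟨s, hs⟩ := sub_mem (hL y hy) (hM x hx)
      refine ⟨s, ?_⟩
      have e1 : Q y = Q x - polar Q x w + Q w := by
        rw [← map_sub', hw, sub_sub_cancel]
      have e2 : t x - s • u = y := by
        rw [ht, ← algebraMap_smul K s u, hs, e1, polar_comm Q w x]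
        have : Q w • u = w := by rw [hu, smul_smul, mul_inv_cancel₀ hQ, one_smul]
        have e3 : y = x - Q w • u := by rw [this, hw, sub_sub_cancel]
        rw [e3]
        module
      rwa [e2]
    have hall : ∀ m' ∈ M', ∃ s : R, m' - s • u ∈ L := by
      rintro _ ⟨m, hm, rfl⟩
      obtain ⟨r, hr⟩ := hc m hm
      obtain ⟨s, hs⟩ := hx'
      have hrM : m - r • x ∈ M := sub_mem hm (M.smul_mem r hx)
      obtain ⟨c, hc⟩ := sub_mem (hM.polar hx hrM) (hL.polar hy hr)
      rw [← polar_sub_left, ← hw] at hc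
      refine ⟨r * s - c, ?_⟩
      have e : (t.toLinearMap.restrictScalars R) m - (r * s - c) • u =
          r • (t x - s • u) + (m - r • x) := by
        have e1 : (t.toLinearMap.restrictScalars R) m = r • t x + t (m - r • x) := by
          rw [map_sub, LinearMapClass.map_smul_of_tower t r x]
          simp
        rw [e1, ht (m - r • x), ← hc, algebraMap_smul]
        module
      rw [e]
      exact add_mem (L.smul_mem r hs) hr
    let J : Ideal R := den (M' ⊔ L) u
    obtain ⟨g, hg⟩ := IsDedekindDomain.exists_sup_span_eq (I := den L u) (J := J)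
      (fun r hr => Submodule.mem_sup_right hr) (hden u)
    have hgJ : g ∈ J := hg ▸ Submodule.mem_sup_right (Ideal.mem_span_singleton_self g)
    obtain ⟨z, hz, l, hl, hzl⟩ := Submodule.mem_sup.1 (mem_den.1 hgJ)
    have hcard : Nat.card (R ⧸ den L z) < N := by
      have h1 : den L u ≤ den L z := by
        intro r hr
        have : r • z = g • r • u - r • l := by
          rw [smul_comm, ← hzl]
          module
        rw [mem_den, this]
        exact sub_mem (L.smul_mem g hr) (L.smul_mem r hl)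
      have h2 : Ideal.span {a} * den L x ≤ Ideal.span {b} * den L u := by
        rw [Ideal.span_singleton_mul_le_span_singleton_mul]
        intro r hr
        obtain ⟨c1, h1⟩ := hM x hx
        obtain ⟨c2, h2⟩ := hL y hy
        obtain ⟨c3, h3⟩ := hL.polar (mem_den.1 hr) hy
        rw [← algebraMap_smul K r x, polar_smul_left, smul_eq_mul] at h3
        have e : algebraMap R K (r * c1 - c3 + r * c2) = algebraMap R K r * Q w := by
          rw [hw, map_sub', map_add, map_sub, map_mul, map_mul, h1, h2, h3]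
          ring
        refine ⟨r * c1 - c3 + r * c2, ?_, inj ?_⟩
        · rw [mem_den, ← algebraMap_smul K _ u, e, hu, smul_smul, mul_assoc, mul_inv_cancel₀ hQ,
            mul_one, algebraMap_smul, hw, smul_sub]
          exact sub_mem hr (L.smul_mem r hy)
        · rw [map_mul, map_mul, e, ← hab]
          ring
      have h3 := card_le hfin (mul_ne_zero (by simpa using ha) (hden x)) h2
      rw [card_mul a ha, card_mul b hb] at h3
      have h4 := card_le hfin (hden u) h1
      have := hfin _ (hden x)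
      have h5 : 0 < Nat.card (R ⧸ den L x) := Nat.card_pos
      have h6 : Nat.card (R ⧸ den L u) < Nat.card (R ⧸ den L x) := by
        by_contra c
        nlinarith
      omega
    obtain ⟨s, hs1, hs2⟩ := ih z M' hcard hM' hz (by
      intro m' hm'
      obtain ⟨c, hc⟩ := hall m' hm'
      have hcJ : c ∈ J := by
        rw [mem_den]
        have : c • u = m' - (m' - c • u) := by abel
        rw [this]
        exact sub_mem (Submodule.mem_sup_left hm') (Submodule.mem_sup_right hc)
      rw [← hg] at hcJ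
      obtain ⟨d, hd, e, he, rfl⟩ := Submodule.mem_sup.1 hcJ
      obtain ⟨r, rfl⟩ := Ideal.mem_span_singleton'.1 he
      refine ⟨r, ?_⟩
      have : m' - r • z = (m' - (d + r * g) • u) + d • u + r • l := by
        rw [add_smul, mul_smul, ← hzl]
        module
      rw [this]
      exact add_mem (add_mem hc hd) (L.smul_mem r hl))
    exact ⟨t.trans s, fun v => (hs1 _).trans (rfl'_iso Q w hQ v),
      fun m hm => hs2 _ ⟨m, hm, rfl⟩⟩

theorem embed (hfin : ∀ I : Ideal R, I ≠ ⊥ → Finite (R ⧸ I)) (Q : QuadraticMap K V K)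
    (L : Submodule R V) (hL : Integ Q L) (hden : ∀ x, den L x ≠ ⊥)
    (heuc : ∀ x, x ∉ L → ∃ y ∈ L, Small R (Q (x - y))) (M : Submodule R V) (hfg : M.FG)
    (hM : Integ Q M) : ∃ s : V ≃ₗ[K] V, (∀ v, Q (s v) = Q v) ∧ ∀ m ∈ M, s m ∈ L := by
  have : IsNoetherian R M := isNoetherian_of_fg_of_noetherian M hfg
  obtain ⟨N, ⟨s, hs1, hs2⟩, hmax⟩ := set_has_maximal_iff_noetherian.2 this
    {N : Submodule R M | ∃ s : V ≃ₗ[K] V, (∀ v, Q (s v) = Q v) ∧ ∀ m ∈ N, s m ∈ L}
    ⟨⊥, LinearEquiv.refl K V, fun _ => rfl, by simp⟩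
  refine ⟨s, hs1, fun x hx => ?_⟩
  let f : M →ₗ[R] V := (s.toLinearMap.restrictScalars R).comp M.subtype
  let N' : Submodule R M := N ⊔ Submodule.span R {⟨x, hx⟩}
  obtain ⟨t, ht1, ht2⟩ := cyc hfin Q L hL hden heuc _ (s x) (N'.map f) (Nat.lt_succ_self _)
    (by
      rintro _ ⟨m, -, rfl⟩
      have := hs1 m
      exact this ▸ hM m m.2)
    ⟨⟨x, hx⟩, Submodule.mem_sup_right (Submodule.mem_span_singleton_self _), rfl⟩
    (by
      rintro _ ⟨m, hm, rfl⟩
      obtain ⟨p, hp, e, he, rfl⟩ := Submodule.mem_sup.1 hm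
      obtain ⟨r, rfl⟩ := Submodule.mem_span_singleton.1 he
      refine ⟨r, ?_⟩
      have : f (p + r • ⟨x, hx⟩) - r • s x = s p := by
        rw [map_add, map_smul]
        exact add_sub_cancel_right _ _
      rw [this]
      exact hs2 p hp)
  by_contra c
  refine hmax N' ⟨s.trans t, fun v => (ht1 _).trans (hs1 v), fun m hm => ht2 _ ⟨m, hm, rfl⟩⟩
    (lt_of_le_of_ne le_sup_left fun e => c (hs2 ⟨x, hx⟩ ?_))
  rw [e]
  exact Submodule.mem_sup_right (Submodule.mem_span_singleton_self _)

theorem maxi (hfin : ∀ I : Ideal R, I ≠ ⊥ → Finite (R ⧸ I)) (Q : QuadraticMap K V K)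
    (L : Submodule R V) (hL : Integ Q L) (heuc : ∀ x, x ∉ L → ∃ y ∈ L, Small R (Q (x - y)))
    (z : V) (h1 : Q z ∈ (algebraMap R K).range)
    (h2 : ∀ y ∈ L, polar Q z y ∈ (algebraMap R K).range) : z ∈ L := by
  by_contra c
  obtain ⟨y, hy, a, b, ha, -, hab, hlt⟩ := heuc z c
  obtain ⟨d, hd⟩ := add_mem (sub_mem h1 (h2 y hy)) (hL y hy)
  rw [← map_sub'] at hd
  rw [← hd, ← map_mul] at hab
  have := card_le hfin (I := Ideal.span {a}) (J := Ideal.span {b}) (by simpa using ha)
    (Ideal.span_singleton_le_span_singleton.2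
      ⟨d, by rw [← IsFractionRing.injective R K hab, mul_comm]⟩)
  omega

end Pool.Agent.H.MP_14e93c_nt
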