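import Pool.Agent.H.MP_14e93c_nt.A

set_option linter.unusedSectionVars false

open QuadraticMap IsDedekindDomain IsDedekindDomain.HeightOneSpectrum

namespace Pool.Agent.H.MP_14e93c_nt

variable {R K : Type*} [CommRing R] [IsDedekindDomain R] [Field K] [Algebra R K]
  [IsFractionRing R K]

theorem mem_O (v : HeightOneSpectrum R) (k : K) :
    algebraMap K (v.adicCompletion K) k ∈ v.adicCompletionIntegers K ↔ v.valuation K k ≤ 1 := by
  rw [mem_adicCompletionIntegers, ← valuedAdicCompletion_eq_valuation']
  rfl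

theorem val_le (w : HeightOneSpectrum R) {k : K} {r s u x : R}
    (hk : k * algebraMap R K s = algebraMap R K r) (hu : u ∉ w.asIdeal)
    (h : u * x ∈ Ideal.span {s}) : w.valuation K (algebraMap R K x * k) ≤ 1 := by
  obtain ⟨c, hc⟩ := Ideal.mem_span_singleton'.1 h
  have e : algebraMap R K u * (algebraMap R K x * k) = algebraMap R K (c * r) := by
    rw [← mul_assoc, ← map_mul, ← hc, map_mul, map_mul, ← hk]
    ring
  have : w.valuation K (algebraMap R K (c * r)) ≤ 1 := w.valuation_le_one (K := K) (c * r)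
  have h1 : w.valuation K (algebraMap R K u) = 1 := (w.valuation_eq_one_iff_notMem (K := K)).2 hu
  rwa [← e, map_mul, h1, one_mul] at this

theorem approx (v : HeightOneSpectrum R) (a : v.adicCompletion K) : ∃ k : K,
    a - algebraMap K _ k ∈ v.adicCompletionIntegers K ∧ ∀ w : HeightOneSpectrum R, w ≠ v →
      w.valuation K k ≤ 1 := by
  have ho : IsOpen {x : v.adicCompletion K | a - x ∈ v.adicCompletionIntegers K} :=
    (Valued.isOpen_valuationSubring (v.adicCompletion K)).preimage (continuous_const.sub continuous_id)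
  obtain ⟨k, hk⟩ := (v.denseRange_algebraMap K).exists_mem_open ho ⟨a, by simp⟩
  obtain ⟨⟨r, s, hs⟩, hrs⟩ := IsLocalization.surj (nonZeroDivisors R) k
  have hs0 : Ideal.span {s} ≠ ⊥ := by simpa using nonZeroDivisors.ne_zero hs
  have := v.isMaximal
  obtain ⟨J, h1, h2⟩ := Ideal.eq_prime_pow_mul_coprime hs0 v.asIdeal
  set e := Multiset.count v.asIdeal (UniqueFactorizationMonoid.normalizedFactors (Ideal.span {s}))
  have h3 : v.asIdeal ^ e ⊔ J = ⊤ := Ideal.pow_sup_eq_top h1
  obtain ⟨p, hp, t, ht, hpt⟩ := Submodule.mem_sup.1 (h3 ▸ Submodule.mem_top : (1 : R) ∈ _)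
  refine ⟨algebraMap R K t * k, ?_, fun w hw => ?_⟩
  · obtain ⟨u, hu, hu'⟩ : ∃ u ∈ J, u ∉ v.asIdeal := by
      by_contra c
      push Not at c
      exact v.isMaximal.ne_top (by rw [← h1, sup_eq_left.2 c])
    have h4 := (mem_O v _).2 (val_le v hrs hu' (x := p)
      (by rw [h2, mul_comm u]; exact Ideal.mul_mem_mul hp hu))
    have e : a - algebraMap K (v.adicCompletion K) (algebraMap R K t * k) =
        (a - algebraMap K _ k) + algebraMap K _ (algebraMap R K p * k) := by
      have : algebraMap R K t = 1 - algebraMap R K p := by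
        rw [← map_one (algebraMap R K), ← hpt, map_add]
        ring
      rw [this, sub_mul, one_mul, map_sub]
      ring
    rw [e]
    exact add_mem hk h4
  · obtain ⟨u, hu, hu'⟩ : ∃ u ∈ v.asIdeal, u ∉ w.asIdeal := by
      by_contra c
      push Not at c
      exact hw (HeightOneSpectrum.ext (v.isMaximal.eq_of_le w.isPrime.ne_top c).symm)
    exact val_le w hrs (u := u ^ e) (fun c => hu' (w.isPrime.mem_of_pow_mem _ c))
      (by rw [h2]; exact Ideal.mul_mem_mul (Ideal.pow_mem_pow hu e) ht)

theorem glob (v : HeightOneSpectrum R) (k : K)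
    (h1 : algebraMap K (v.adicCompletion K) k ∈ v.adicCompletionIntegers K)
    (h2 : ∀ w : HeightOneSpectrum R, w ≠ v → w.valuation K k ≤ 1) :
    k ∈ (algebraMap R K).range := by
  refine mem_integers_of_valuation_le_one K k fun w => ?_
  by_cases h : w = v
  · exact h ▸ (mem_O v k).1 h1
  · exact h2 w h

theorem int_mem (v : HeightOneSpectrum R) (r : R) :
    algebraMap R (v.adicCompletion K) r ∈ v.adicCompletionIntegers K :=
  coe_algebraMap_mem R K v r

theorem approxR (v : HeightOneSpectrum R) (a : v.adicCompletion K)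
    (ha : a ∈ v.adicCompletionIntegers K) (c : R) (hc : c ≠ 0) :
    ∃ r : R, ∃ d ∈ v.adicCompletionIntegers K,
      a = algebraMap R _ r + algebraMap R (v.adicCompletion K) c * d := by
  have hc' : algebraMap R (v.adicCompletion K) c ≠ 0 := by
    rw [IsScalarTower.algebraMap_apply R K, map_ne_zero]
    exact fun h => hc (IsFractionRing.injective R K (by rw [h, map_zero]))
  obtain ⟨k, h1, h2⟩ := approx v (a / algebraMap R _ c)
  have e : algebraMap K (v.adicCompletion K) (algebraMap R K c * k) =
      a - algebraMap R _ c * (a / algebraMap R _ c - algebraMap K _ k) := by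
    rw [map_mul, ← IsScalarTower.algebraMap_apply]
    field_simp
    ring
  obtain ⟨r, hr⟩ := glob v (algebraMap R K c * k)
    (e ▸ sub_mem ha (mul_mem (int_mem v c) h1)) (fun w hw => by
      rw [map_mul]
      exact mul_le_one' (w.valuation_le_one c) (h2 w hw))
  refine ⟨r, _, h1, ?_⟩
  rw [IsScalarTower.algebraMap_apply R K _ r, hr, e]
  ring

variable {n : ℕ}

noncomputable def QQ (S : Type*) [CommRing S] [Algebra R S] (A : Matrix (Fin n) (Fin n) R) :
    QuadraticMap S (Fin n → S) S := (A.map (algebraMap R S)).toQuadraticForm'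

theorem QQ_apply (S : Type*) [CommRing S] [Algebra R S] (A : Matrix (Fin n) (Fin n) R)
    (x : Fin n → S) : QQ S A x = ∑ i, ∑ j, algebraMap R S (A i j) * x i * x j := by
  simp only [QQ, Matrix.toQuadraticForm', LinearMap.BilinMap.toQuadraticMap_apply,
    Matrix.toLinearMap₂'_apply, Matrix.map_apply, smul_eq_mul]
  refine Finset.sum_congr rfl fun i _ => Finset.sum_congr rfl fun j _ => by ring

theorem QQ_mem {S T : Type*} [CommRing S] [Algebra R S] [SetLike T S] [SubringClass T S] (O : T)
    (hO : ∀ r, algebraMap R S r ∈ O) (A : Matrix (Fin n) (Fin n) R) (x : Fin n → S)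
    (hx : ∀ i, x i ∈ O) : QQ S A x ∈ O := by
  rw [QQ_apply]
  exact sum_mem fun i _ => sum_mem fun j _ => mul_mem (mul_mem (hO _) (hx i)) (hx j)

theorem polar_mem {S T : Type*} [CommRing S] [Algebra R S] [SetLike T S] [SubringClass T S] (O : T)
    (hO : ∀ r, algebraMap R S r ∈ O) (A : Matrix (Fin n) (Fin n) R) (x y : Fin n → S)
    (hx : ∀ i, x i ∈ O) (hy : ∀ i, y i ∈ O) : polar (QQ S A) x y ∈ O :=
  sub_mem (sub_mem (QQ_mem O hO A _ fun i => add_mem (hx i) (hy i)) (QQ_mem O hO A _ hx))
    (QQ_mem O hO A _ hy)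

def io (F : Type*) [Field F] [Algebra K F] (x : Fin n → K) : Fin n → F :=
  fun i => algebraMap K F (x i)

theorem QQ_io (F : Type*) [Field F] [Algebra K F] [Algebra R F] [IsScalarTower R K F]
    (A : Matrix (Fin n) (Fin n) R) (x : Fin n → K) :
    QQ F A (io F x) = algebraMap K F (QQ K A x) := by
  simp only [QQ_apply, io, map_sum, map_mul, ← IsScalarTower.algebraMap_apply]

theorem polar_io (F : Type*) [Field F] [Algebra K F] [Algebra R F] [IsScalarTower R K F]
    (A : Matrix (Fin n) (Fin n) R) (x y : Fin n → K) :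
    polar (QQ F A) (io F x) (io F y) = algebraMap K F (polar (QQ K A) x y) := by
  have : io F x + io F y = io F (x + y) := by
    ext i
    simp [io]
  simp only [polar, this, QQ_io, map_sub]

theorem locmax (A : Matrix (Fin n) (Fin n) R)
    (hmax : ∀ z : Fin n → K, QQ K A z ∈ (algebraMap R K).range →
      (∀ y : Fin n → K, (∀ i, y i ∈ (algebraMap R K).range) →
        polar (QQ K A) z y ∈ (algebraMap R K).range) → ∀ i, z i ∈ (algebraMap R K).range)
    (v : HeightOneSpectrum R) (u : Fin n → v.adicCompletion K)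
    (h1 : QQ _ A u ∈ v.adicCompletionIntegers K)
    (h2 : ∀ y : Fin n → v.adicCompletion K, (∀ i, y i ∈ v.adicCompletionIntegers K) →
      polar (QQ _ A) u y ∈ v.adicCompletionIntegers K) (i : Fin n) :
    u i ∈ v.adicCompletionIntegers K := by
  choose z hz1 hz2 using fun i => approx v (u i)
  set d : Fin n → v.adicCompletion K := u - io _ z with hd
  have hd1 : ∀ i, d i ∈ v.adicCompletionIntegers K := hz1
  have e : io _ z = u - d := by rw [hd, sub_sub_cancel]
  have hw : ∀ (w : HeightOneSpectrum R) (r : R),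
      algebraMap R K r ∈ (w.valuation K).valuationSubring := fun w r => w.valuation_le_one r
  obtain ⟨r, hr⟩ := hmax z
    (glob v _ (by
      rw [← QQ_io _ A, e, map_sub']
      exact add_mem (sub_mem h1 (h2 d hd1)) (QQ_mem _ (int_mem v) A d hd1))
      fun w h => QQ_mem (w.valuation K).valuationSubring (hw w) A z fun i => hz2 i w h)
    (fun y hy => by
      have hy' : ∀ i, io (v.adicCompletion K) y i ∈ v.adicCompletionIntegers K := by
        intro i
        obtain ⟨c, hc⟩ := hy i
        rw [io, ← hc, ← IsScalarTower.algebraMap_apply]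
        exact int_mem v c
      refine glob v _ ?_ fun w h => polar_mem (w.valuation K).valuationSubring (hw w) A z y
        (fun i => hz2 i w h) fun i => ?_
      · rw [← polar_io _ A, e, polar_sub_left]
        exact sub_mem (h2 _ hy') (polar_mem _ (int_mem v) A _ _ hd1 hy')
      · obtain ⟨c, hc⟩ := hy i
        exact hc ▸ hw w c) i
  have := add_mem (hz1 i) (int_mem (K := K) v r)
  rwa [IsScalarTower.algebraMap_apply R K _ r, hr, sub_add_cancel] at this

end Pool.Agent.H.MP_14e93c_nt
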