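import Pool.Agent.H.MP_14e93c_nt.B

set_option linter.unusedSectionVars false

open QuadraticMap IsDedekindDomain IsDedekindDomain.HeightOneSpectrum

namespace Pool.Agent.H.MP_14e93c_nt

variable {R K : Type*} [CommRing R] [IsDedekindDomain R] [Field K] [Algebra R K]
  [IsFractionRing R K] {n : ℕ}

abbrev std (R K : Type*) [CommRing R] [Field K] [Algebra R K] (n : ℕ) :
    Submodule R (Fin n → K) := Submodule.pi Set.univ fun _ => (1 : Submodule R K)

theorem mem_std {x : Fin n → K} : x ∈ std R K n ↔ ∀ i, x i ∈ (algebraMap R K).range := by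
  simp [Submodule.mem_pi, Submodule.mem_one]

noncomputable abbrev lc (v : HeightOneSpectrum R) (M : Submodule R (Fin n → K)) :
    Submodule (v.adicCompletionIntegers K) (Fin n → v.adicCompletion K) :=
  Submodule.span _ (io (v.adicCompletion K) '' (M : Set (Fin n → K)))

theorem mem_lc_std (v : HeightOneSpectrum R) {x : Fin n → v.adicCompletion K} :
    x ∈ lc v (std R K n) ↔ ∀ i, x i ∈ v.adicCompletionIntegers K := by
  constructor
  · intro h
    induction h using Submodule.span_induction with
    | mem x hx =>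
      obtain ⟨y, hy, rfl⟩ := hx
      intro i
      obtain ⟨c, hc⟩ := mem_std.1 hy i
      rw [io, ← hc, ← IsScalarTower.algebraMap_apply]
      exact int_mem v c
    | zero => exact fun i => zero_mem _
    | add x y _ _ hx hy => exact fun i => add_mem (hx i) (hy i)
    | smul a x _ hx => exact fun i => mul_mem a.2 (hx i)
  · intro h
    rw [← Finset.univ_sum_single x]
    refine sum_mem fun i _ => ?_
    have : Pi.single i (x i) = (⟨x i, h i⟩ : v.adicCompletionIntegers K) •
        io (v.adicCompletion K) (Pi.single i (1 : K)) := by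
      ext1 j
      by_cases c : j = i
      · subst c
        change _ = x j * _
        simp [io]
      · simp [io, c]
    rw [this]
    refine Submodule.smul_mem _ _ (Submodule.subset_span ⟨_, mem_std.2 fun j => ?_, rfl⟩)
    by_cases c : j = i
    · subst c
      simp
    · simp [c]

theorem den_std (x : Fin n → K) : den (std R K n) x ≠ ⊥ := by
  obtain ⟨b, hb⟩ := IsLocalization.exist_integer_multiples_of_finite (nonZeroDivisors R) x
  intro c
  have : (b : R) ∈ den (std R K n) x := mem_den.2 (mem_std.2 fun i => hb i)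
  rw [c] at this
  exact nonZeroDivisors.ne_zero b.2 this

theorem den_lat (M : Submodule R (Fin n → K)) (h : Submodule.span K (M : Set (Fin n → K)) = ⊤)
    (x : Fin n → K) : ∃ c : R, c ≠ 0 ∧ c • x ∈ M := by
  have hx : x ∈ Submodule.span K (M : Set (Fin n → K)) := h ▸ Submodule.mem_top
  induction hx using Submodule.span_induction with
  | mem x hx => exact ⟨1, one_ne_zero, by simpa using hx⟩
  | zero => exact ⟨1, one_ne_zero, by simp⟩
  | add x y _ _ hx hy =>
    obtain ⟨c, c0, hc⟩ := hx
    obtain ⟨d, d0, hd⟩ := hy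
    refine ⟨c * d, mul_ne_zero c0 d0, ?_⟩
    rw [smul_add, mul_smul c d y, mul_comm, mul_smul]
    exact add_mem (M.smul_mem d hc) (M.smul_mem c hd)
  | smul a x _ hx =>
    obtain ⟨c, c0, hc⟩ := hx
    obtain ⟨⟨r, s, hs⟩, hrs⟩ := IsLocalization.surj (nonZeroDivisors R) a
    refine ⟨s * c, mul_ne_zero (nonZeroDivisors.ne_zero hs) c0, ?_⟩
    have : (s * c) • a • x = r • c • x := by
      rw [mul_comm, mul_smul, ← algebraMap_smul K s, smul_smul _ a, mul_comm, hrs,
        algebraMap_smul, smul_comm]
    rw [this]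
    exact M.smul_mem r hc

theorem fg_den {M N : Submodule R (Fin n → K)} (hM : M.FG) (h : ∀ x, ∃ c : R, c ≠ 0 ∧ c • x ∈ N) :
    ∃ c : R, c ≠ 0 ∧ ∀ x ∈ M, c • x ∈ N := by
  induction M, hM using Submodule.fg_induction with
  | singleton x =>
    obtain ⟨c, c0, hc⟩ := h x
    refine ⟨c, c0, fun y hy => ?_⟩
    obtain ⟨r, rfl⟩ := Submodule.mem_span_singleton.1 hy
    rw [smul_comm]
    exact N.smul_mem r hc
  | sup M₁ M₂ _ _ h₁ h₂ =>
    obtain ⟨c, c0, hc⟩ := h₁
    obtain ⟨d, d0, hd⟩ := h₂
    refine ⟨c * d, mul_ne_zero c0 d0, fun z hz => ?_⟩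
    obtain ⟨x, hx, y, hy, rfl⟩ := Submodule.mem_sup.1 hz
    rw [smul_add, mul_smul c d y, mul_comm, mul_smul]
    exact add_mem (N.smul_mem d (hc x hx)) (N.smul_mem c (hd y hy))

theorem fg_std : (std R K n).FG :=
  Submodule.fg_pi fun _ => by rw [Submodule.one_eq_span]; exact Submodule.fg_span_singleton 1

theorem key (M : Submodule R (Fin n → K)) (v : HeightOneSpectrum R) (c d : R) (c0 : c ≠ 0)
    (d0 : d ≠ 0) (hd : ∀ x ∈ M, d • x ∈ std R K n) (y : Fin n → v.adicCompletion K)
    (hy : y ∈ lc v M) : ∃ m ∈ M, ∀ i, ∃ e ∈ v.adicCompletionIntegers K,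
      y i = io _ m i + algebraMap R (v.adicCompletion K) c * e := by
  induction hy using Submodule.span_induction with
  | mem x hx =>
    obtain ⟨m, hm, rfl⟩ := hx
    exact ⟨m, hm, fun i => ⟨0, zero_mem _, by simp⟩⟩
  | zero => exact ⟨0, zero_mem _, fun i => ⟨0, zero_mem _, by simp [io]⟩⟩
  | add x y _ _ hx hy =>
    obtain ⟨m, hm, hx⟩ := hx
    obtain ⟨m', hm', hy⟩ := hy
    refine ⟨m + m', add_mem hm hm', fun i => ?_⟩
    obtain ⟨e, he, h1⟩ := hx i
    obtain ⟨e', he', h2⟩ := hy i
    refine ⟨e + e', add_mem he he', ?_⟩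
    simp only [Pi.add_apply, h1, h2, io, map_add]
    ring
  | smul a x _ hx =>
    obtain ⟨m, hm, hx⟩ := hx
    obtain ⟨r, g, hg, ha⟩ := approxR (K := K) v (a : v.adicCompletion K) a.2 (c * d)
      (mul_ne_zero c0 d0)
    refine ⟨r • m, M.smul_mem r hm, fun i => ?_⟩
    obtain ⟨e, he, h1⟩ := hx i
    obtain ⟨s, hs⟩ := mem_std.1 (hd m hm) i
    refine ⟨a * e + g * algebraMap R _ s, add_mem (mul_mem a.2 he) (mul_mem hg (int_mem v s)), ?_⟩
    have h2 : (a • x) i = (a : v.adicCompletion K) * x i := rfl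
    have h3 : algebraMap R (v.adicCompletion K) s = algebraMap R _ d * io _ m i := by
      rw [IsScalarTower.algebraMap_apply R K _ s, hs, Pi.smul_apply, Algebra.smul_def, map_mul,
        ← IsScalarTower.algebraMap_apply, io]
    have h4 : io (v.adicCompletion K) (r • m) i = algebraMap R _ r * io _ m i := by
      rw [io, Pi.smul_apply, Algebra.smul_def, map_mul, ← IsScalarTower.algebraMap_apply, io]
    rw [h2, h1, h3, h4]
    rw [map_mul] at ha
    linear_combination (io (v.adicCompletion K) m i) * ha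

theorem loc_glob (M : Submodule R (Fin n → K)) (hfg : M.FG)
    (hsp : Submodule.span K (M : Set (Fin n → K)) = ⊤) (l : Fin n → K)
    (h : ∀ v : HeightOneSpectrum R, io (v.adicCompletion K) l ∈ lc v M) : l ∈ M := by
  obtain ⟨c, c0, hc⟩ := fg_den (fg_std (R := R) (K := K) (n := n)) (den_lat M hsp)
  obtain ⟨d, d0, hd⟩ := fg_den (N := std R K n) hfg fun x => by
    obtain ⟨c, hc, c0⟩ := Submodule.exists_mem_ne_zero_of_ne_bot (den_std (R := R) x)
    exact ⟨c, c0, hc⟩
  by_contra hl
  have hne : den M l ≠ ⊤ := fun e => hl (by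
    simpa using mem_den.1 (e ▸ Submodule.mem_top : (1 : R) ∈ den M l))
  obtain ⟨P, hP, hle⟩ := Ideal.exists_le_maximal _ hne
  have hP0 : P ≠ ⊥ := by
    obtain ⟨e, e0, he⟩ := den_lat M hsp l
    intro c
    have := hle (mem_den.2 he)
    rw [c] at this
    exact e0 this
  obtain ⟨v, rfl⟩ : ∃ v : HeightOneSpectrum R, v.asIdeal = P := ⟨⟨P, hP.isPrime, hP0⟩, rfl⟩
  obtain ⟨m, hm, hi⟩ := key M v c d c0 d0 hd _ (h v)
  have cK : algebraMap R K c ≠ 0 :=
    fun h => c0 (IsFractionRing.injective R K (by rw [h, map_zero]))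
  have h1 : ∀ i, ∃ (r : R) (s : v.asIdeal.primeCompl),
      (l i - m i) / algebraMap R K c * algebraMap R K s = algebraMap R K r := by
    intro i
    refine exists_primeCompl_mul_eq_of_integer v _ ((mem_O v _).1 ?_)
    obtain ⟨e, he, h1⟩ := hi i
    have : algebraMap K (v.adicCompletion K) ((l i - m i) / algebraMap R K c) = e := by
      rw [map_div₀, map_sub, div_eq_iff ((map_ne_zero _).2 cK), ← IsScalarTower.algebraMap_apply]
      simp only [io] at h1
      linear_combination h1
    rwa [this]
  choose r s hs using h1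
  let t : v.asIdeal.primeCompl := ∏ i, s i
  refine t.2 (hle (mem_den.2 ?_))
  have h2 : (t : R) • (algebraMap R K c)⁻¹ • (l - m) ∈ std R K n := by
    refine mem_std.2 fun i => ?_
    obtain ⟨g, hg⟩ : s i ∣ t := Finset.dvd_prod_of_mem s (Finset.mem_univ i)
    refine ⟨g * r i, ?_⟩
    change _ = (t : R) • ((algebraMap R K c)⁻¹ * (l i - m i))
    rw [map_mul, ← hs i, hg, Algebra.smul_def, Submonoid.coe_mul, map_mul]
    ring
  have h3 := hc _ h2
  rw [smul_comm c, ← algebraMap_smul K c, smul_smul _ _ (l - m), mul_inv_cancel₀ cK, one_smul,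
    smul_sub] at h3
  simpa using add_mem h3 (M.smul_mem t hm)

theorem main (hfin : ∀ I : Ideal R, I ≠ ⊥ → Finite (R ⧸ I)) (A : Matrix (Fin n) (Fin n) R)
    (heuc : ∀ x, x ∉ std R K n → ∃ y ∈ std R K n, Small R (QQ K A (x - y)))
    (M : Submodule R (Fin n → K)) (hfg : M.FG)
    (hsp : Submodule.span K (M : Set (Fin n → K)) = ⊤)
    (hgen : ∀ v : HeightOneSpectrum R,
      ∃ e : lc v M ≃ₗ[v.adicCompletionIntegers K] lc v (std R K n),
        ∀ x, QQ _ A (e x : Fin n → v.adicCompletion K) = QQ _ A (x : Fin n → v.adicCompletion K)) :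
    ∃ e : M ≃ₗ[R] std R K n, ∀ x, QQ K A (e x : Fin n → K) = QQ K A (x : Fin n → K) := by
  have hL : Integ (QQ K A) (std R K n) := fun m hm =>
    QQ_mem (algebraMap R K).range (fun r => RingHom.mem_range_self _ r) A m (mem_std.1 hm)
  have hM : Integ (QQ K A) M := by
    intro m hm
    refine mem_integers_of_valuation_le_one K _ fun v => (mem_O v _).1 ?_
    obtain ⟨e, he⟩ := hgen v
    have := he ⟨_, Submodule.subset_span ⟨m, hm, rfl⟩⟩
    rw [← QQ_io _ A, ← this]
    exact QQ_mem _ (int_mem v) A _ ((mem_lc_std v).1 (e _).2)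
  obtain ⟨s, hs1, hs2⟩ := embed hfin (QQ K A) _ hL den_std heuc M hfg hM
  have hsurj : ∀ l, s l ∈ std R K n → l ∈ M := by
    intro l hl
    refine loc_glob M hfg hsp l fun v => ?_
    obtain ⟨e, he⟩ := hgen v
    obtain ⟨c, c0, hc⟩ := den_lat M hsp l
    let F := v.adicCompletion K
    have cF : algebraMap R F c ≠ 0 := by
      rw [IsScalarTower.algebraMap_apply R K, map_ne_zero]
      exact fun h => c0 (IsFractionRing.injective R K (by rw [h, map_zero]))
    have e0 : io F (c • l) = algebraMap R F c • io F l := by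
      ext1 i
      rw [io, Pi.smul_apply, Algebra.smul_def, map_mul, ← IsScalarTower.algebraMap_apply,
        Pi.smul_apply, io, smul_eq_mul]
    let p : lc v M := ⟨io F (c • l), Submodule.subset_span ⟨_, hc, rfl⟩⟩
    have hpol : ∀ x y : lc v M, polar (QQ F A) (e x : Fin n → F) (e y) =
        polar (QQ F A) (x : Fin n → F) y := by
      intro x y
      have h0 := he (x + y)
      rw [map_add, Submodule.coe_add, Submodule.coe_add] at h0
      have h1 := he x
      have h2 := he y
      simp only [polar]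
      rw [h0, h1, h2]
    have hb : ∀ y ∈ lc v M, polar (QQ F A) (io F l) y ∈ v.adicCompletionIntegers K := by
      intro y hy
      induction hy using Submodule.span_induction with
      | mem x hx =>
        obtain ⟨m, hm, rfl⟩ := hx
        obtain ⟨r, hr⟩ := hL.polar hl (hs2 m hm)
        have : polar (QQ K A) (s l) (s m) = polar (QQ K A) l m := by
          simp only [polar, ← map_add, hs1]
        rw [polar_io, ← this, ← hr, ← IsScalarTower.algebraMap_apply]
        exact int_mem v r
      | zero => simp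
      | add x y _ _ hx hy =>
        rw [polar_add_right]
        exact add_mem hx hy
      | smul a x _ hx =>
        have : a • x = (a : F) • x := rfl
        rw [this, polar_smul_right]
        exact mul_mem a.2 hx
    have hu := locmax A (fun z h1 h2 => mem_std.1 (maxi hfin (QQ K A) _ hL heuc z h1
      fun y hy => h2 y (mem_std.1 hy))) v ((algebraMap R F c)⁻¹ • (e p : Fin n → F))
      (by
        rw [QuadraticMap.map_smul, he]
        change _ • QQ F A (io F (c • l)) ∈ _
        rw [e0, QuadraticMap.map_smul, smul_smul, ← mul_inv, inv_mul_cancel₀ (mul_ne_zero cF cF),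
          one_smul, QQ_io, ← hs1]
        obtain ⟨r, hr⟩ := hL _ hl
        rw [← hr, ← IsScalarTower.algebraMap_apply]
        exact int_mem v r)
      (by
        intro y hy
        obtain ⟨y', hy'⟩ := e.surjective ⟨y, (mem_lc_std v).2 hy⟩
        have : y = e y' := by rw [hy']
        rw [polar_smul_left, this, hpol]
        change _ • polar (QQ F A) (io F (c • l)) _ ∈ _
        rw [e0, polar_smul_left, smul_smul, inv_mul_cancel₀ cF, one_smul]
        exact hb _ y'.2)
    obtain ⟨z, hz⟩ := e.surjective ⟨_, (mem_lc_std v).2 hu⟩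
    have h1 : e ((⟨algebraMap R F c, int_mem v c⟩ : v.adicCompletionIntegers K) • z) = e p := by
      rw [map_smul, hz]
      ext1
      change algebraMap R F c • (algebraMap R F c)⁻¹ • (e p : Fin n → F) = _
      rw [smul_smul, mul_inv_cancel₀ cF, one_smul]
    have h2 : algebraMap R F c • (z : Fin n → F) = algebraMap R F c • io F l :=
      (congrArg Subtype.val (e.injective h1)).trans e0
    rw [← smul_right_injective _ cF h2]
    exact z.2
  refine ⟨(s.restrictScalars R).ofSubmodules M (std R K n) ?_, fun x => hs1 x⟩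
  ext y
  constructor
  · rintro ⟨m, hm, rfl⟩
    exact hs2 m hm
  · intro hy
    exact ⟨s.symm y, hsurj _ (by simpa using hy), by simp⟩

end Pool.Agent.H.MP_14e93c_nt
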